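import Mathlib

/-!
# Steinhaus graphs: the degrees of the first three vertices
-/

set_option autoImplicit false

namespace Pool.Agent.J6H5.ST

open Finset

/-- the bound -/
theorem bound (N : ℕ) (c : ℕ → ℤ) (h01 : ∀ j, c j = 0 ∨ c j = 1) (h0 : c 0 = 0) (d : ℤ)
    (hd : Even d) (hd0 : ∑ t ∈ range N, c (t + 1) = d)
    (hd1 : ∑ t ∈ range N, (c t + c (t + 1) - 2 * (c t * c (t + 1))) = d) :
    c N = 0 ∧ d = 2 * ∑ t ∈ range N, c t * c (t + 1) ∧ 3 * d ≤ 2 * N ∧
      (3 * d = 2 * N → ∀ t < N, (1 - c t) * (1 - c (t + 1)) = 0) := by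
  set S1 := ∑ t ∈ range N, c t * c (t + 1) with hS1
  have hs : ∑ t ∈ range N, c t = d - c N := by
    have h1 := Finset.sum_range_succ c N
    have h2 := Finset.sum_range_succ' c N
    rw [h2, hd0, h0] at h1
    linarith
  have h3 : d = c N + 2 * S1 := by
    have h4 : ∑ t ∈ range N, (c t + c (t + 1) - 2 * (c t * c (t + 1))) =
        ∑ t ∈ range N, c t + ∑ t ∈ range N, c (t + 1) - 2 * S1 := by
      rw [Finset.sum_sub_distrib, Finset.sum_add_distrib, ← Finset.mul_sum]
    rw [h4, hs, hd0] at hd1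
    linarith
  have hcN : c N = 0 := by
    obtain ⟨r, hr⟩ := hd
    rcases h01 N with h | h
    · exact h
    · rw [h] at h3
      omega
  rw [hcN, zero_add] at h3
  have hF : ∑ t ∈ range N, c t * (1 - c (t + 1)) = S1 := by
    have h4 : ∀ t ∈ range N, c t * (1 - c (t + 1)) = c t - c t * c (t + 1) := fun t _ => by ring
    rw [Finset.sum_congr rfl h4, Finset.sum_sub_distrib, hs, hcN]
    linarith
  have hZ : ∑ t ∈ range N, (1 - c (t + 1)) = N - d := by
    rw [Finset.sum_sub_distrib, hd0, Finset.sum_const, Finset.card_range]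
    simp
  have hZF : ∑ t ∈ range N, (1 - c t) * (1 - c (t + 1)) = N - d - S1 := by
    have h4 : ∀ t ∈ range N, (1 - c t) * (1 - c (t + 1)) =
        (1 - c (t + 1)) - c t * (1 - c (t + 1)) := fun t _ => by ring
    rw [Finset.sum_congr rfl h4, Finset.sum_sub_distrib, hZ, hF]
  have hnn : ∀ t ∈ range N, 0 ≤ (1 - c t) * (1 - c (t + 1)) := by
    intro t _
    rcases h01 t with h | h <;> rcases h01 (t + 1) with h' | h' <;> rw [h, h'] <;> norm_num
  have hpos : 0 ≤ ∑ t ∈ range N, (1 - c t) * (1 - c (t + 1)) := Finset.sum_nonneg hnn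
  refine ⟨hcN, h3, by linarith, fun he t ht => ?_⟩
  have hz : ∑ t ∈ range N, (1 - c t) * (1 - c (t + 1)) = 0 := by
    rw [hZF]
    linarith
  exact (Finset.sum_eq_zero_iff_of_nonneg hnn).1 hz t (Finset.mem_range.2 ht)

/-- the case of equality -/
theorem equality (K : ℕ) (c : ℕ → ℤ) (h01 : ∀ j, c j = 0 ∨ c j = 1) (h0 : c 0 = 0)
    (hN1 : c (K + 2) = 0) (d : ℤ)
    (hd : Even d) (hd0 : ∑ t ∈ range (K + 1), c (t + 1) = d)
    (hd1 : ∑ t ∈ range (K + 1), (c t + c (t + 1) - 2 * (c t * c (t + 1))) = d)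
    (hd2 : c 1 + c 2 - 2 * (c 1 * c 2) + ∑ t ∈ range K, (c t + c (t + 2) - 2 * (c t * c (t + 2))) = d)
    (he : 3 * d = 2 * ((K + 1 : ℕ) : ℤ)) :
    ∀ m, 3 * m + 1 ≤ K + 1 →
      c (3 * m + 1) = 1 ∧ 3 * m + 3 ≤ K + 1 ∧ c (3 * m + 2) = 1 ∧ c (3 * m + 3) = 0 := by
  obtain ⟨hcN, hS1, -, h00⟩ := bound (K + 1) c h01 h0 d hd hd0 hd1
  have h00 := h00 he
  set S1 := ∑ t ∈ range (K + 1), c t * c (t + 1) with hS1def
  have no : ∀ t < K + 1, c t = 0 → c (t + 1) = 1 := by
    intro t ht h
    have := h00 t ht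
    rw [h] at this
    linarith
  have no' : ∀ t < K + 1, c (t + 1) = 0 → c t = 1 := by
    intro t ht h
    have := h00 t ht
    rw [h] at this
    linarith
  have hc1 : c 1 = 1 := no 0 (by omega) h0
  have hcK : c K = 1 := no' K (by omega) hcN
  have hsK : ∑ t ∈ range K, c (t + 1) = d := by
    have := Finset.sum_range_succ (fun t => c (t + 1)) K
    rw [hd0, hcN] at this
    linarith
  have hsK0 : ∑ t ∈ range K, c t = d - 1 := by
    have h1 := Finset.sum_range_succ c K
    have h2 := Finset.sum_range_succ' c K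
    rw [h2, hsK, h0, hcK] at h1
    linarith
  have hsK2 : ∑ t ∈ range K, c (t + 2) = d - 1 := by
    have h2 := Finset.sum_range_succ' (fun t => c (t + 1)) K
    rw [hd0] at h2
    simp only [zero_add, hc1] at h2
    have h3 : ∑ t ∈ range K, c (t + 1 + 1) = ∑ t ∈ range K, c (t + 2) := rfl
    rw [h3] at h2
    linarith
  set S2 := ∑ t ∈ range K, c t * c (t + 2) with hS2def
  have h5 : d = 1 + c 2 + 2 * S2 := by
    have h4 : ∑ t ∈ range K, (c t + c (t + 2) - 2 * (c t * c (t + 2))) =
        ∑ t ∈ range K, c t + ∑ t ∈ range K, c (t + 2) - 2 * S2 := by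
      rw [Finset.sum_sub_distrib, Finset.sum_add_distrib, ← Finset.mul_sum]
    rw [h4, hsK0, hsK2, hc1] at hd2
    linarith
  have hc2 : c 2 = 1 := by
    obtain ⟨r, hr⟩ := hd
    rcases h01 2 with h | h
    · rw [h] at h5
      omega
    · exact h
  rw [hc2] at h5
  have hM : ∑ t ∈ range K, c t * (1 - c (t + 1)) * c (t + 2) = K - d := by
    have h6 : ∀ t ∈ range K, c t * (1 - c (t + 1)) * c (t + 2) = 1 - c (t + 1) := by
      intro t ht
      rw [Finset.mem_range] at ht
      rcases h01 (t + 1) with h | h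
      · rw [h, no' t (by omega) h, no (t + 1) (by omega) h]
        norm_num
      · rw [h]
        ring
    rw [Finset.sum_congr rfl h6, Finset.sum_sub_distrib, hsK, Finset.sum_const,
      Finset.card_range]
    simp
  have hT : ∑ t ∈ range K, c t * c (t + 1) * c (t + 2) = 0 := by
    have h6 : ∀ t ∈ range K, c t * c (t + 1) * c (t + 2) =
        c t * c (t + 2) - c t * (1 - c (t + 1)) * c (t + 2) := fun t _ => by ring
    rw [Finset.sum_congr rfl h6, Finset.sum_sub_distrib, hM, ← hS2def]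
    push_cast at he
    linarith
  have hTt : ∀ t < K, c t * c (t + 1) * c (t + 2) = 0 := by
    intro t ht
    refine (Finset.sum_eq_zero_iff_of_nonneg ?_).1 hT t (Finset.mem_range.2 ht)
    intro t _
    rcases h01 t with h | h <;> rcases h01 (t + 1) with h' | h' <;>
      rcases h01 (t + 2) with h'' | h'' <;> rw [h, h', h''] <;> norm_num
  have hU : ∑ t ∈ range (K + 1), c (t + 1) * (1 - c t - c (t + 2)) = 0 := by
    have h6 : ∀ t ∈ range (K + 1), c (t + 1) * (1 - c t - c (t + 2)) =
        c (t + 1) - c t * c (t + 1) - c (t + 1) * c (t + 1 + 1) := by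
      intro t _
      show _ = c (t + 1) - c t * c (t + 1) - c (t + 1) * c (t + 2)
      ring
    rw [Finset.sum_congr rfl h6, Finset.sum_sub_distrib, Finset.sum_sub_distrib, hd0, ← hS1def]
    have h7 := Finset.sum_range_succ' (fun t => c t * c (t + 1)) (K + 1)
    have h8 := Finset.sum_range_succ (fun t => c t * c (t + 1)) (K + 1)
    rw [h7, ← hS1def] at h8
    simp only [h0, hcN, zero_mul, add_zero] at h8
    rw [h8]
    linarith
  have hUt : ∀ t < K + 1, c (t + 1) * (1 - c t - c (t + 2)) = 0 := by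
    intro t ht
    refine (Finset.sum_eq_zero_iff_of_nonneg ?_).1 hU t (Finset.mem_range.2 ht)
    intro t ht
    rw [Finset.mem_range] at ht
    by_cases htK : t = K
    · rw [htK, hcN, zero_mul]
    · have h9 := hTt t (by omega)
      rcases h01 (t + 1) with h' | h'
      · rw [h', zero_mul]
      · rw [h', one_mul]
        rcases h01 t with h | h
        · rcases h01 (t + 2) with h'' | h''
          · rw [h, h'']; norm_num
          · rw [h, h'']; norm_num
        · rcases h01 (t + 2) with h'' | h''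
          · rw [h, h'']; norm_num
          · exfalso
            rw [h, h', h''] at h9
            norm_num at h9
  have key : ∀ m, 3 * m < K + 1 → c (3 * m) = 0 →
      c (3 * m + 1) = 1 ∧ 3 * m + 3 ≤ K + 1 ∧ c (3 * m + 2) = 1 ∧ c (3 * m + 3) = 0 := by
    intro m hm hm0
    have a1 : c (3 * m + 1) = 1 := no _ hm hm0
    have a2 : 3 * m + 1 ≠ K + 1 := by
      intro h
      rw [h, hcN] at a1
      exact zero_ne_one a1
    have a3 : c (3 * m + 2) = 1 := by
      have := hUt (3 * m) hm
      rw [a1, hm0] at this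
      linarith
    have a4 : 3 * m + 2 ≠ K + 1 := by
      intro h
      rw [h, hcN] at a3
      exact zero_ne_one a3
    have a5 : c (3 * m + 3) = 0 := by
      have := hUt (3 * m + 1) (by omega)
      have e1 : 3 * m + 1 + 1 = 3 * m + 2 := by omega
      have e2 : 3 * m + 1 + 2 = 3 * m + 3 := by omega
      rw [e1, e2, a1, a3] at this
      linarith
    exact ⟨a1, by omega, a3, a5⟩
  intro m
  induction m with
  | zero => intro h; exact key 0 (by omega) h0
  | succ m ih =>
    intro h
    have h1 := ih (by omega)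
    have e : 3 * (m + 1) = 3 * m + 3 := by ring
    refine key (m + 1) (by omega) ?_
    rw [e]
    exact h1.2.2.2

end Pool.Agent.J6H5.ST
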